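import Pool.Agent.Helper35.HG.StE

set_option autoImplicit false

namespace Helper34.HG

open Helper35.HG Helper35.HC Helper35.HSF Helper35.MS Helper35.PI Helper35.PI2 Helper32.CL

private lemma core (X u g N R J L D V q : ℝ) (hN : 1 ≤ N) (hu : 0 ≤ u) (hug : u ≤ g)
    (hX : 64 / 3 * N ^ 2 * (u * (u + 2)) = X) (hX0 : 0 ≤ X) (hR0 : 0 ≤ R)
    (hR1 : R ≤ 23 / 100 * (16 / 3 * N * (g * (g + 2) - u * (u + 2))))
    (hR2 : X * R ≤ (433 / 1000 + 3 / 10 * g) * (16 / 3 * N * (g * (g + 2) - u * (u + 2))))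
    (hJ : J ≤ 28843 / 100000 + 23 / 100 * X) (hJ0 : J ≤ 433 / 1000 + 23 / 100 * X)
    (hL0 : 263 / 1000 ≤ L) (hL1 : L ≤ 31004 / 100000) (hD0 : 0 ≤ D) (hD1 : D ≤ 3 / 10 * g)
    (hV : V = J + 3 / 10 * g - 3 / 5 * u)
    (hM : (4 / 5 * J + X + 1) * L - 2 * J + (1 / 2 - 4 / 5 / 8) * (433 / 1000) * J ≤
      -(382 / 10000) - 1087 / 10000 * X) :
    (4 / 5 * V + X + 1) * (L + D) - 2 * V
      + (1 - 4 / 5 / 4) * V * ((433 / 1000 + 3 / 10 * g) / 2 + R) + V / 100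
      - 6938 / 10000 * (16 / 5 * N ^ 2 * q)
      + 323 / 10000 * (4 / 3 * N * (g * (g + 2))) + 105 / 10000 - 13 / 1000 * g
      - 26 / 1000 * g ^ 2 ≤
    (-(248 / 10000) - 7978 / 100000 * g + 82 / 1000 * g ^ 2 + 97 / 100 * u)
      + (4 / 5 * (32 / 3) * (23 / 100) * (433 / 1000 + 3 / 10 * g)
          * (g * (g + 2) - u * (u + 2)) + 4 / 3 * (323 / 10000) * (g * (g + 2))) * N
      + (64 / 3 * (u * (u + 2)) * (-(1064 / 10000) + 92 / 1000 * (3 / 10 * g)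
          + 1184 / 1000 * D) - 6938 / 10000 * (16 / 5 * q)) * N ^ 2 := by
  have hg : 0 ≤ g := hu.trans hug
  obtain ⟨A, hA⟩ : ∃ A : ℝ, A = g * (g + 2) - u * (u + 2) := ⟨_, rfl⟩
  have hXe : (64 / 3 * (u * (u + 2)) * (-(1064 / 10000) + 92 / 1000 * (3 / 10 * g)
          + 1184 / 1000 * D) - 6938 / 10000 * (16 / 5 * q)) * N ^ 2 =
      X * (-(1064 / 10000) + 92 / 1000 * (3 / 10 * g) + 1184 / 1000 * D)
        - 6938 / 10000 * (16 / 5 * q) * N ^ 2 := by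
    rw [← hX]; ring
  rw [hXe]
  rw [← hA] at hR1 hR2 ⊢
  have f2 : 0 ≤ (31004 / 100000 - L) * (3 / 10 * g) := mul_nonneg (by linarith) (by linarith)
  have f3 : 0 ≤ (L - 263 / 1000) * (3 / 10 * u) := mul_nonneg (by linarith) (by linarith)
  have hVb : V ≤ 28843 / 100000 + 23 / 100 * X + 3 / 10 * g := by rw [hV]; linarith
  have hVc : V ≤ (433 / 1000 + 3 / 10 * g) + 23 / 100 * X := by rw [hV]; linarith
  have f4 : 0 ≤ (28843 / 100000 + 23 / 100 * X + 3 / 10 * g - V) * D :=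
    mul_nonneg (by linarith) hD0
  have f5 : 0 ≤ (1 + 4 / 5 * (28843 / 100000) + 4 / 5 * (3 / 10 * g)) * (3 / 10 * g - D) :=
    mul_nonneg (by linarith) (by linarith)
  have f6 : 0 ≤ (28843 / 100000 + 23 / 100 * X + 3 / 10 * g - V) * (3 / 10 * g) :=
    mul_nonneg (by linarith) (by linarith)
  have g1 : 0 ≤ ((433 / 1000 + 3 / 10 * g) + 23 / 100 * X - V) * R :=
    mul_nonneg (by linarith) hR0
  have g2 : 0 ≤ (433 / 1000 + 3 / 10 * g) * (23 / 100 * (16 / 3 * N * A) - R) :=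
    mul_nonneg (by linarith) (by linarith)
  have f8 : V * R ≤ 2 * (23 / 100) * (433 / 1000 + 3 / 10 * g) * (16 / 3 * N * A) := by
    linarith
  have hid : (4 / 5 * V + X + 1) * (L + D) - 2 * V
      + (1 - 4 / 5 / 4) * V * ((433 / 1000 + 3 / 10 * g) / 2 + R) =
      ((4 / 5 * J + X + 1) * L - 2 * J + (1 / 2 - 4 / 5 / 8) * (433 / 1000) * J)
      - (18268 / 10000 - 4 / 5 * L) * (3 / 10 * g - 3 / 5 * u)
      + (4 / 5 * (V * D) + (X + 1) * D) + 2 / 5 * (V * (3 / 10 * g)) + 4 / 5 * (V * R) := by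
    rw [hV]; ring
  rw [hid]
  have f9 : 4 / 5 * (V * R) ≤
      4 / 5 * (2 * (23 / 100) * (433 / 1000 + 3 / 10 * g) * (16 / 3 * N * A)) := by linarith
  have b2 : -((18268 / 10000 - 4 / 5 * L) * (3 / 10 * g - 3 / 5 * u)) ≤
      -(18268 / 10000 - 4 / 5 * (31004 / 100000)) * (3 / 10 * g) + 32328 / 10000 * (3 / 10 * u) := by
    linarith
  have b3 : 4 / 5 * (V * D) + (X + 1) * D ≤ 1184 / 1000 * (X * D)
      + (1 + 4 / 5 * (28843 / 100000) + 4 / 5 * (3 / 10 * g)) * (3 / 10 * g) := by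
    linarith
  have b4 : 2 / 5 * (V * (3 / 10 * g)) ≤
      2 / 5 * ((28843 / 100000 + 23 / 100 * X + 3 / 10 * g) * (3 / 10 * g)) := by
    linarith
  clear hid hXe hX hR1 hR2 g1 g2 f8 f2 f3 f4 f5 f6
  generalize (4 / 5 * J + X + 1) * L - 2 * J + (1 / 2 - 4 / 5 / 8) * (433 / 1000) * J = M at hM ⊢
  generalize (18268 / 10000 - 4 / 5 * L) * (3 / 10 * g - 3 / 5 * u) = W2 at b2 ⊢
  generalize 4 / 5 * (V * D) + (X + 1) * D = W3 at b3 ⊢
  generalize 2 / 5 * (V * (3 / 10 * g)) = W4 at b4 ⊢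
  generalize 4 / 5 * (V * R) = W5 at f9 ⊢
  have h1 : M - W2 + W3 + W4 + W5 + V / 100 ≤ (-(382 / 10000) - 1087 / 10000 * X)
      + (-(18268 / 10000 - 4 / 5 * (31004 / 100000)) * (3 / 10 * g)
        + 32328 / 10000 * (3 / 10 * u))
      + (1184 / 1000 * (X * D)
      + (1 + 4 / 5 * (28843 / 100000) + 4 / 5 * (3 / 10 * g)) * (3 / 10 * g))
      + 2 / 5 * ((28843 / 100000 + 23 / 100 * X + 3 / 10 * g) * (3 / 10 * g))
      + 4 / 5 * (2 * (23 / 100) * (433 / 1000 + 3 / 10 * g) * (16 / 3 * N * A))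
      + (28843 / 100000 + 23 / 100 * X + 3 / 10 * g) / 100 := by linarith
  have h2 : (-(382 / 10000) - 1087 / 10000 * X)
      + (-(18268 / 10000 - 4 / 5 * (31004 / 100000)) * (3 / 10 * g)
        + 32328 / 10000 * (3 / 10 * u))
      + (1184 / 1000 * (X * D)
      + (1 + 4 / 5 * (28843 / 100000) + 4 / 5 * (3 / 10 * g)) * (3 / 10 * g))
      + 2 / 5 * ((28843 / 100000 + 23 / 100 * X + 3 / 10 * g) * (3 / 10 * g))
      + 4 / 5 * (2 * (23 / 100) * (433 / 1000 + 3 / 10 * g) * (16 / 3 * N * A))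
      + (28843 / 100000 + 23 / 100 * X + 3 / 10 * g) / 100
      + 105 / 10000 - 13 / 1000 * g - 26 / 1000 * g ^ 2 ≤
      (-(248 / 10000) - 7978 / 100000 * g + 82 / 1000 * g ^ 2 + 97 / 100 * u)
      + 4 / 5 * (32 / 3) * (23 / 100) * (433 / 1000 + 3 / 10 * g) * A * N
      + X * (-(1064 / 10000) + 92 / 1000 * (3 / 10 * g) + 1184 / 1000 * D) := by
    nlinarith
  linarith

private lemma lin1 (A B M1 S : ℝ) (hS : 1 ≤ M1 * S) (hS0 : 0 ≤ S) (hB : B ≤ 0)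
    (hAB : A * M1 + B ≤ 0) : A + B * S ≤ 0 := by
  by_cases hA : A ≤ 0
  · have := mul_nonpos_of_nonpos_of_nonneg hB hS0
    linarith
  · push Not at hA
    have h1 : A * 1 ≤ A * (M1 * S) := mul_le_mul_of_nonneg_left hS hA.le
    have h2 : (A * M1 + B) * S ≤ 0 := mul_nonpos_of_nonpos_of_nonneg hAB hS0
    linarith

private lemma fin1 (c0 c1 c2 μ N M1 : ℝ) (hμ : 0 < μ) (hN : 1 ≤ N) (hc1 : 0 ≤ c1)
    (hM1 : 1 ≤ M1 * N ^ 2) (hB : c1 * μ / 2 + c2 ≤ 0)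
    (hAB : (c0 + c1 / (2 * μ)) * M1 + (c1 * μ / 2 + c2) ≤ 0) : c0 + c1 * N + c2 * N ^ 2 ≤ 0 := by
  have h1 : N ≤ μ * N ^ 2 / 2 + 1 / (2 * μ) := by
    have h2 : μ * N ^ 2 / 2 + 1 / (2 * μ) - N = (μ * N - 1) ^ 2 / (2 * μ) := by
      field_simp
      ring
    have h3 : 0 ≤ (μ * N - 1) ^ 2 / (2 * μ) := by positivity
    linarith
  have h4 := mul_le_mul_of_nonneg_left h1 hc1
  have h5 := lin1 (c0 + c1 / (2 * μ)) (c1 * μ / 2 + c2) M1 (N ^ 2) hM1 (by positivity) hB hAB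
  have h6 : c1 * (μ * N ^ 2 / 2 + 1 / (2 * μ)) = c1 * μ / 2 * N ^ 2 + c1 / (2 * μ) := by
    ring
  linarith

private lemma hhb (X : ℝ) (hX : 7 / 4 ≤ X) : 0 < hh X ∧ hh X ≤ 16 / 107 := by
  unfold hh
  have h1 : 107 / 16 ≤ 1 + 13 / 4 * X := by linarith
  constructor
  · positivity
  · rw [div_le_div_iff₀ (by linarith) (by norm_num)]
    linarith

private lemma Dbd (u g : ℝ) (hu : 0 ≤ u) (hug : u ≤ g) : 0 ≤ D1f u g ∧ D1f u g ≤ 3 / 10 * g := by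
  unfold D1f
  have h1 : 0 ≤ u * (u / (1 + u)) := by positivity
  have h2 : u / (1 + u) ≤ 1 := by
    rw [div_le_one (by linarith)]
    linarith
  have h3 : u * (u / (1 + u)) ≤ u * 1 := mul_le_mul_of_nonneg_left h2 hu
  constructor <;> linarith

theorem hRL2A : StMBD → StPQ2A → StRL2A := by
  intro hMBD hPQ X u g N R h hX74 hg3
  obtain ⟨hN, hu, hug, hX, hR0, hR1, hR2⟩ := h
  have hX0 : 0 ≤ X := by linarith
  have hg : 0 ≤ g := hu.trans hug
  obtain ⟨hh0, hh1⟩ := hhb X hX74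
  obtain ⟨hD0, hD1⟩ := Dbd u g hu hug
  have hM := (hMBD X hX0).1
  unfold Mf at hM
  have hJ : Jf X ≤ 28843 / 100000 + 23 / 100 * X := by unfold Jf; linarith
  have hJ0 : Jf X ≤ 433 / 1000 + 23 / 100 * X := by linarith
  have hL0 : 263 / 1000 ≤ Lf X := by unfold Lf; nlinarith
  have hL1 : Lf X ≤ 31004 / 100000 := by unfold Lf; nlinarith
  have hmain : FR (4 / 5) X u g N R ≤ cA8 u g + cC (4 / 5) u g * N + cD8 u g * N ^ 2 := by
    have h1 := core X u g N R (Jf X) (Lf X) (D1f u g) (Vf X u g) ((g * (g + 2)) ^ 2 / (1 + g)) hN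
      hu hug hX.symm hX0 hR0 hR1 hR2 hJ hJ0 hL0 hL1 hD0 hD1 rfl hM
    unfold FR cA8 cC cD8
    have e1 : 16 / 5 * N ^ 2 * (g * (g + 2)) ^ 2 / (1 + g) =
        16 / 5 * N ^ 2 * ((g * (g + 2)) ^ 2 / (1 + g)) := by ring
    have e2 : 16 / 5 * (g * (g + 2)) ^ 2 / (1 + g) =
        16 / 5 * ((g * (g + 2)) ^ 2 / (1 + g)) := by ring
    rw [e1, e2]
    exact h1
  refine hmain.trans ?_
  have hc1 : 0 ≤ cC (4 / 5) u g := by
    unfold cC
    have h1 : 0 ≤ g * (g + 2) - u * (u + 2) := by nlinarith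
    have h2 : 0 ≤ (433 / 1000 + 3 / 10 * g) := by linarith
    positivity
  have hM1 : 1 ≤ 64 / 3 * (u * (u + 2)) / (7 / 4) * N ^ 2 := by
    have : 64 / 3 * (u * (u + 2)) / (7 / 4) * N ^ 2 = X / (7 / 4) := by rw [hX]; ring
    rw [this, le_div_iff₀ (by norm_num)]
    linarith
  have hN2 : (1 : ℝ) ≤ 1 * N ^ 2 := by nlinarith
  obtain ⟨hP1, hP2⟩ := hPQ u g hu hug hg3
  by_cases hg6 : g ≤ 1 / 6
  · obtain ⟨q1, q2⟩ := hP1 hg6
    have hgpos : 0 < g := by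
      rcases hg.eq_or_lt with h0 | h0
      · exfalso
        have hu0 : u = 0 := by linarith
        rw [hX, hu0] at hX74
        norm_num at hX74
      · exact h0
    have q3 := q2 hgpos
    refine fin1 (cA8 u g) (cC (4 / 5) u g) (cD8 u g) (6 * g) N _ (by positivity) hN hc1 hM1 ?_ ?_
    · have : cC (4 / 5) u g * (6 * g) / 2 = 3 * g * cC (4 / 5) u g := by ring
      rw [this]; exact q1
    · have h1 : cC (4 / 5) u g * (6 * g) / 2 = 3 * g * cC (4 / 5) u g := by ring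
      have h2 : 2 * (6 * g) = 12 * g := by ring
      rw [h1, h2]
      linarith
  · push Not at hg6
    obtain ⟨q1, q2, q3⟩ := hP2 hg6.le
    by_cases hG : 64 / 3 * (u * (u + 2)) ≤ 7 / 4
    · have q4 := q2 hG
      refine fin1 (cA8 u g) (cC (4 / 5) u g) (cD8 u g) 1 N _ one_pos hN hc1 hM1 ?_ ?_
      · rw [mul_one]; exact q1
      · rw [mul_one, mul_one]
        linarith
    · push Not at hG
      have q4 := q3 hG.le
      refine fin1 (cA8 u g) (cC (4 / 5) u g) (cD8 u g) 1 N 1 one_pos hN hc1 hN2 ?_ ?_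
      · rw [mul_one]; exact q1
      · rw [mul_one, mul_one, mul_one]
        linarith

end Helper34.HG
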