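import Pool.Agent.Helper35.HG.StA

set_option autoImplicit false

namespace Helper34.HG

open Helper35.HG Helper35.HC Helper35.HSF Helper35.MS Helper35.PI Helper35.PI2 Helper32.CL

private lemma idn (n r l E e e1 e2 J1 J2 P1 P2 X θ h W r1 r2 r3 tp tn en tqq e2q S Z Y th sY sC
    hXv hYv hx sx cx hXX sXX V : ℝ) (hr : 0 < r) (hn : 0 < n) (hX : X = h ^ 2 / (n ^ 2 * r))
    (hXd : hXv = -2 * tqq + 2 * S) (hYd : hYv = -2 * e2q + 2 * Z)
    (hhx : hx = 1 / r * (hYv / n ^ 2) - 2 * n * (Y / n ^ 2))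
    (hsx : sx = (1 / r * (1 / n ^ 2)) ^ 2 * sY)
    (hcx : cx = 1 / r * (1 / n ^ 2) * (1 / r * (1 / n)) * sC)
    (hhXX : hXX = 1 / r * ((-2 * en + 2 * r3) / n ^ 2) - 2 * n * (h ^ 2 / n ^ 2))
    (hsXX : sXX = (1 / r * (2 * h / n ^ 2)) ^ 2 * en)
    (hR : r1 + E / n * r2 - n * r * W
      + l * e * ((S - Z / n) / n - r * th)
      + l * e1 * θ * (Z / n ^ 2 - r * Y / n)
      - l * J1 * (r3 / n ^ 2 - r * h ^ 2 / n)
      - l * P1 * (Z / n ^ 2 - r * Y / n) ≤ -(n / 100) * r ^ 2 * (l * V))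
    (hG : -tp - E / n * (tn - en / n)
      - l * e * ((tqq - e2q / n) / n)
      - l * e1 * θ * (e2q / n ^ 2)
      - l * e2 * θ * (sY / (2 * r * n ^ 4))
      - l * e1 * (sC / (r * n ^ 3))
      + l * J1 * (en / n ^ 2) + l * J2 * (2 * X * en / n ^ 2)
      + l * P1 * (e2q / n ^ 2)
      + l * P2 * (sY / (2 * r * n ^ 4)) ≤ 0) :
    1 / r * ((-2 * tp + 2 * r1)
          + E / n * (-2 * (tn - en / n) + 2 * r2))
        - 2 * n * W
        + l * (e * (1 / r * ((hXv - hYv / n) / n) - 2 * th)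
          + θ * (e1 * hx - e2 * sx) - 2 * (e1 * cx))
        - l * (J1 * hXX - J2 * sXX) - l * (P1 * hx - P2 * sx)
      ≤ -(n / 50) * r * (l * V) := by
  have hr0 : r ≠ 0 := hr.ne'
  have hn0 : n ≠ 0 := hn.ne'
  have h0 : 1 / r * ((-2 * tp + 2 * r1) + E / n * (-2 * (tn - en / n) + 2 * r2)) - 2 * n * W =
      2 / r * ((r1 + E / n * r2 - n * r * W) + (-tp - E / n * (tn - en / n))) := by
    field_simp
    ring
  have h1 : 1 / r * ((hXv - hYv / n) / n) - 2 * th =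
      2 / r * (((S - Z / n) / n - r * th) - (tqq - e2q / n) / n) := by
    rw [hXd, hYd]
    field_simp
    ring
  have h2 : hx = 2 / r * ((Z / n ^ 2 - r * Y / n) - e2q / n ^ 2) := by
    rw [hhx, hYd]
    field_simp
    ring
  have h3 : sx = 2 / r * (sY / (2 * r * n ^ 4)) := by
    rw [hsx]
    field_simp
  have h4 : cx = 1 / r * (sC / (r * n ^ 3)) := by
    rw [hcx]
    field_simp
  have h5 : hXX = 2 / r * ((r3 / n ^ 2 - r * h ^ 2 / n) - en / n ^ 2) := by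
    rw [hhXX]
    field_simp
    ring
  have h6 : sXX = 2 / r * (2 * X * en / n ^ 2) := by
    rw [hsXX, hX]
    field_simp
  have hsum : 1 / r * ((-2 * tp + 2 * r1)
          + E / n * (-2 * (tn - en / n) + 2 * r2))
        - 2 * n * W
        + l * (e * (1 / r * ((hXv - hYv / n) / n) - 2 * th)
          + θ * (e1 * hx - e2 * sx) - 2 * (e1 * cx))
        - l * (J1 * hXX - J2 * sXX) - l * (P1 * hx - P2 * sx) =
      2 / r * ((r1 + E / n * r2 - n * r * W
      + l * e * ((S - Z / n) / n - r * th)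
      + l * e1 * θ * (Z / n ^ 2 - r * Y / n)
      - l * J1 * (r3 / n ^ 2 - r * h ^ 2 / n)
      - l * P1 * (Z / n ^ 2 - r * Y / n)) + (-tp - E / n * (tn - en / n)
      - l * e * ((tqq - e2q / n) / n)
      - l * e1 * θ * (e2q / n ^ 2)
      - l * e2 * θ * (sY / (2 * r * n ^ 4))
      - l * e1 * (sC / (r * n ^ 3))
      + l * J1 * (en / n ^ 2) + l * J2 * (2 * X * en / n ^ 2)
      + l * P1 * (e2q / n ^ 2)
      + l * P2 * (sY / (2 * r * n ^ 4)))) := by
    rw [h0, h1, h2, h3, h4, h5, h6]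
    generalize (S - Z / n) / n - r * th = A1
    generalize (tqq - e2q / n) / n = A2
    generalize Z / n ^ 2 - r * Y / n = A3
    generalize e2q / n ^ 2 = A4
    generalize sY / (2 * r * n ^ 4) = A5
    generalize sC / (r * n ^ 3) = A6
    generalize r3 / n ^ 2 - r * h ^ 2 / n = A7
    generalize 2 * X * en / n ^ 2 = A9
    generalize en / n ^ 2 = A8
    generalize r1 + E / n * r2 - n * r * W = A10
    generalize -tp - E / n * (tn - en / n) = A11
    ring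
  rw [hsum]
  have h7 : 2 / r * (-(n / 100) * r ^ 2 * (l * V) + 0) = -(n / 50) * r * (l * V) := by
    field_simp
    ring
  rw [← h7]
  exact mul_le_mul_of_nonneg_left (add_le_add hR hG) (by positivity)

theorem hTPN : StREA → StGRA → StSQC → StTPN := by
  intro hREA hGRA hSQC n N k hN p hp A r L x₀ hA T hT hTx l hl hl1 hRg x θ hx hθ P Q ν hν hPQ X h
    hh hXd heq hxv sx cx hXX sXX hhx hsx hcx hhXX hsXX
  have hr : 0 < r := hA.r0
  have hn16 : 16 ≤ n := hp.n16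
  have hn : (0 : ℝ) < n := by
    have : (16 : ℝ) ≤ n := by exact_mod_cast hn16
    linarith
  obtain ⟨hx0, hθ0, hE, hall, -⟩ := hSQC n N k hN p hp A r L x₀ hA l hl hl1 hRg x θ hx hθ
  have hXx : X ≤ x := by
    have := (hall ν hν).1
    rw [← hh, ← hXd] at this
    exact this
  have hX0 : 0 ≤ X := by
    rw [hXd]
    positivity
  have hV1 : 0 < p.J x + p.P x := hp.V0 x x hx0 le_rfl
  have hV0 : 0 < p.J 0 + p.P x := hp.V0 0 x le_rfl hx0
  have hE' : (1 + p.E) * θ ≤ p.J x + p.P x + (k + 1) * (p.J 0 + p.P x) := by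
    refine hE.trans ?_
    have h1 : 0 ≤ p.J x + p.P x + ((k : ℝ) + 1) * (p.J 0 + p.P x) := by positivity
    have h2 := mul_le_mul_of_nonneg_right hl1 h1
    rw [one_mul] at h2
    exact h2
  have hR := hREA n N k hN p hp A r L x₀ hA l hl hl1 hRg x θ hx hθ P Q ν hν hPQ X h hh hXd heq
  have hG := hGRA n N k p hp A r L x₀ hA T hT hTx P Q ν hν.n1 l x θ X h hl hl1 hx hθ hx0 hθ0 hE'
    hh hXd
  refine ⟨hx0, hθ0, hX0, hXx, ?_⟩
  have e3 : sx = (1 / r * (1 / (n : ℝ) ^ 2)) ^ 2 * (∑ k', gY A T k' ^ 2) := by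
    rw [hsx, Finset.mul_sum]
    refine Finset.sum_congr rfl (fun i _ => ?_)
    ring
  have e4 : cx = 1 / r * (1 / (n : ℝ) ^ 2) * (1 / r * (1 / n)) *
      (∑ k', gY A T k' * (gX A T k' - gY A T k' / n)) := by
    rw [hcx, Finset.mul_sum]
    refine Finset.sum_congr rfl (fun i _ => ?_)
    ring
  have e6 : sXX = (1 / r * (2 * h / (n : ℝ) ^ 2)) ^ 2 * eqn T ν := by
    unfold eqn
    rw [hsXX, Finset.mul_sum]
    refine Finset.sum_congr rfl (fun i _ => ?_)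
    ring
  exact idn n r l p.E (p.e x) (p.e1 x) (p.e2 x) (p.J1 X) (p.J2 X) (p.P1 x) (p.P2 x) X θ h
    (bil (kn A ν) P Q ^ 2 + p.E / n * ip0 (kn A ν) (kn A ν)) (RN1 A P Q ν) (RN2 A ν) (RN3 A ν)
    (tpq T P Q ν) (tqn T ν) (eqn T ν) (tq T) (eq2 T) (Sq A) (ZZ A) (YY A) (thA2 A)
    (∑ k', gY A T k' ^ 2) (∑ k', gY A T k' * (gX A T k' - gY A T k' / n)) (hX A T) (hY A T)
    hxv sx cx hXX sXX (p.J X + p.P x) hr hn hXd rfl rfl hhx e3 e4 hhXX e6 hR hG

end Helper34.HG
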